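import Pool.Agent.H4.AM.Targets

/-!
# B4: the number of characters of height zero in the coprime affine situation (helper97)
-/

open scoped Classical

namespace AMx

theorem b4 (hC1 : T_C1) (hF0 : T_F0) (hF1 : T_F1) (hF3 : T_F3) (hB2 : T_B2) : T_B4 := by
  intro l _ 𝔪 hmax hl X T _ _ _ _ F ψ hψ D hD
  obtain ⟨hix, hixpos, -⟩ := hF0 l X T F
  obtain ⟨-, hind1, -⟩ := hF1 l X T F
  obtain ⟨hI1, hI2, -⟩ := hF3 l X T F
  have hVpos : 0 < Nat.card F.V := Nat.card_pos
  have hcardmap : Nat.card (D.map F.io) = Nat.card D :=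
    Nat.card_congr (D.equivMapOfInjective F.io F.inj).symm.toEquiv
  have hindex : (D.map F.io).index = F.ix * Nat.card F.V * D.index := by
    have h1 := Subgroup.card_mul_index (D.map F.io)
    have h2 := Subgroup.card_mul_index D
    rw [hcardmap, ← hix, ← h2] at h1
    have h3 : 0 < Nat.card D := Nat.card_pos
    have h4 : Nat.card D * (D.map F.io).index =
        Nat.card D * (F.ix * Nat.card F.V * D.index) := by
      rw [h1]; ring
    exact Nat.eq_of_mul_eq_mul_left h3 h4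
  have hDne : D.index ≠ 0 := Subgroup.index_ne_zero_of_finite
  have hval : padicValNat l (D.map F.io).index = padicValNat l F.ix + padicValNat l D.index := by
    rw [hindex, padicValNat.mul (Nat.mul_ne_zero hixpos.ne' hVpos.ne') hDne,
      padicValNat.mul hixpos.ne' hVpos.ne', padicValNat.eq_zero_of_not_dvd F.cop, add_zero]
  unfold k0
  have hset : {χ' : X → ℂ | χ' ∈ Irr X ∧ SameBlock 𝔪 (F.ind ψ) χ' ∧
      ∃ d : ℕ, χ' 1 = d ∧ padicValNat l d = padicValNat l (D.map F.io).index} =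
      F.ind '' {χ' : T → ℂ | χ' ∈ Irr T ∧ SameBlock 𝔪 ψ χ' ∧
        ∃ d : ℕ, χ' 1 = d ∧ padicValNat l d = padicValNat l D.index} := by
    ext χ'
    constructor
    · rintro ⟨h1, h2, d, hd, hd'⟩
      obtain ⟨ψ', hψ', hsame, rfl⟩ := (hB2 l 𝔪 hmax hl X T F ψ hψ χ' h1).1 h2
      refine ⟨ψ', ⟨hψ', hsame, ?_⟩, rfl⟩
      obtain ⟨-, ⟨d', hd'pos, hd'1⟩, -⟩ := hC1 T ψ' hψ'
      refine ⟨d', hd'1, ?_⟩
      rw [hind1, hd'1] at hd
      have h3 : F.ix * d' = d := by exact_mod_cast hd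
      rw [← h3, padicValNat.mul hixpos.ne' hd'pos.ne', hval] at hd'
      omega
    · rintro ⟨ψ', ⟨hψ', hsame, d, hd, hd'⟩, rfl⟩
      refine ⟨(hI1 ψ' hψ').1, (hB2 l 𝔪 hmax hl X T F ψ hψ _ (hI1 ψ' hψ').1).2
        ⟨ψ', hψ', hsame, rfl⟩, F.ix * d, ?_, ?_⟩
      · rw [hind1, hd]
        push_cast
        rfl
      · obtain ⟨-, ⟨d', hd'pos, hd'1⟩, -⟩ := hC1 T ψ' hψ'
        have h3 : d' = d := by
          rw [hd'1] at hd
          exact_mod_cast hd
        rw [padicValNat.mul hixpos.ne' (by omega), hval, hd']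
  rw [hset]
  refine Set.ncard_image_of_injOn ?_
  intro a ha b hb hab
  exact hI2 a ha.1 b hb.1 hab

end AMx
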